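import Pool.Agent.N929.EG.KnStm
import Pool.Agent.N546.EG.CNT3

/-!
# Project EG (helper929), part KNI (helper578): classes of polygons which are invariant under the
moves of words are invariant under the moves of lists of vertices
-/

set_option autoImplicit false

namespace Pool.Agent.N578.EG

open Finset Filter Topology KN TH966.KO
open Pool.Agent.N929.EG

theorem path_inj : ∀ u v : List Dir, path u = path v → u = v
  | [], [], _ => rfl
  | [], d :: v, h => by
    have := congrArg List.length h
    rw [path_length, path_length] at this
    simp at this
  | d :: u, [], h => by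
    have := congrArg List.length h
    rw [path_length, path_length] at this
    simp at this
  | d :: u, e :: v, h => by
    rw [path, path, List.cons.injEq] at h
    have h1 := path_inj u v h.2
    subst h1
    rw [vec_inj (add_left_cancel h.1)]

theorem vec_ne_zero : ∀ f : Dir, vec f ≠ 0 := by decide

theorem vec_ne_of_perp : ∀ f e : Dir, perp f e → vec f ≠ vec e := by decide

theorem vec_add_ne_of_perp : ∀ f e : Dir, perp f e → vec f + vec e ≠ 0 := by decide

theorem path_cons_tail (r : List Dir) : path r = pos r :: (path r).tail := by
  cases r <;> rfl

/-- the two paths of a move -/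
theorem two_paths (t r : List Dir) (e f : Dir) : ∃ A B : List Z3,
    path (t ++ e :: r) = A ++ (pos r + vec e) :: pos r :: B ∧
    path (t ++ [neg f, e, f] ++ r) =
      A ++ (pos r + vec e) :: (pos r + vec f + vec e) :: (pos r + vec f) :: pos r :: B ∧
    A.length = t.length := by
  refine ⟨(path t).dropLast.map (fun p => p + (pos r + vec e)), (path r).tail, ?_, ?_, ?_⟩
  · rw [path_append, path, ← path_cons_tail, pos]
  · have h1 : pos (neg f :: e :: f :: r) = pos r + vec e := by
      simp only [pos, vec_neg]
      abel
    rw [List.append_assoc, path_append]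
    have h2 : [neg f, e, f] ++ r = neg f :: e :: f :: r := rfl
    rw [h2, h1]
    have h3 : path (neg f :: e :: f :: r) =
        (pos r + vec e) :: (pos r + vec f + vec e) :: (pos r + vec f) :: path r := by
      have h4 : path (neg f :: e :: f :: r) = pos (neg f :: e :: f :: r) ::
          (pos r + vec f + vec e) :: (pos r + vec f) :: path r := rfl
      rw [h4, h1]
    rw [h3, ← path_cons_tail]
  · rw [List.length_map, List.length_dropLast, path_length]
    rfl

theorem kni : S_KNI := by
  intro Q hQ n d u u' hu hn hd U U' hT hF hrep
  obtain ⟨hlen, hsaw⟩ := mem_SS.1 hu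
  obtain ⟨p, f, e, hfe, hU, hU'⟩ := hT
  obtain ⟨⟨L, R, hLR⟩, hfree⟩ := hF
  -- the index
  have hp : path u = R.reverse ++ (p + vec e) :: p :: L.reverse := by
    have h := congrArg List.reverse hLR
    rw [List.reverse_reverse] at h
    rw [← h, hU]
    simp
  have hi : R.length < u.length := by
    have h := congrArg List.length hp
    rw [path_length] at h
    simp at h
    omega
  obtain ⟨i, hidef⟩ : ∃ i, i = R.length := ⟨_, rfl⟩
  rw [← hidef] at hi
  have g1 : pos (u.drop i) = p + vec e := by
    have h := path_getElem u i (by rw [path_length]; omega)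
    rw [← h]
    simp only [hp]
    rw [List.getElem_append_right (by simp [hidef])]
    simp [hidef]
  have g2 : pos (u.drop (i + 1)) = p := by
    have h := path_getElem u (i + 1) (by rw [path_length]; omega)
    rw [← h]
    simp only [hp]
    rw [List.getElem_append_right (by simp [hidef])]
    simp [hidef]
  have g3 : u.getD i .xp = e := by
    have h := pos_drop u i hi
    rw [g1, g2] at h
    exact (vec_inj (add_left_cancel h)).symm
  -- the decomposition of the word
  have hdec : u = u.take i ++ e :: u.drop (i + 1) := by
    conv_lhs => rw [← List.take_append_drop i u]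
    rw [drop_eq_getD_cons u i hi, g3]
  obtain ⟨A, B, hA, hB, -⟩ := two_paths (u.take i) (u.drop (i + 1)) e f
  rw [← hdec, g2] at hA
  rw [g2] at hB
  have hins : ins u i f = u.take i ++ [neg f, e, f] ++ u.drop (i + 1) := by
    unfold ins
    rw [g3]
  rw [← hins] at hB
  -- the replacement
  have hr : (path u).reverse = B.reverse ++ U ++ A.reverse := by
    rw [hA, hU]
    simp
  have hnod : (B.reverse ++ U ++ A.reverse).Nodup := by
    rw [← hr, List.nodup_reverse]
    exact hsaw
  have hrep' : rep (path u).reverse U U' = B.reverse ++ U' ++ A.reverse := by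
    rw [hr]
    exact rep_eq (by rw [hU]; simp) hnod
  have hpath : path u' = path (ins u i f) := by
    have h : (path u').reverse = (path (ins u i f)).reverse := by
      rw [hrep, hrep', hB, hU']
      simp
    exact List.reverse_injective h
  have hu' : u' = ins u i f := path_inj _ _ hpath
  -- the move of the polygon
  have hcons : ins (d :: u) (i + 1) f = d :: ins u i f := rfl
  have hSAP : KN.SAP (d :: u) := by
    refine ⟨by rw [List.length_cons]; omega, hd, ?_⟩
    exact hsaw
  have hx1 : p + vec f ∉ path u := by
    rw [← List.mem_reverse]
    refine hfree _ (by rw [hU']; simp) ?_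
    rw [hU]
    simp only [List.mem_cons, List.not_mem_nil, or_false, not_or]
    refine ⟨fun h => vec_ne_zero f ?_, fun h => vec_ne_of_perp f e hfe (add_left_cancel h)⟩
    have h' : p + vec f = p + 0 := by rw [h, add_zero]
    exact add_left_cancel h'
  have hx2 : p + vec f + vec e ∉ path u := by
    rw [← List.mem_reverse]
    refine hfree _ (by rw [hU']; simp) ?_
    rw [hU]
    simp only [List.mem_cons, List.not_mem_nil, or_false, not_or]
    refine ⟨fun h => vec_add_ne_of_perp f e hfe ?_, fun h => vec_ne_zero f ?_⟩
    · have h' : p + (vec f + vec e) = p + 0 := by rw [← add_assoc, h, add_zero]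
      exact add_left_cancel h'
    · have h' : p + vec e + vec f = p + vec e + 0 := by
        rw [add_zero, add_right_comm]
        exact h
      exact add_left_cancel h'
  have hpc : ∀ x, x ∉ path u → x ∉ path (d :: u) := by
    intro x hx hx'
    rw [path, hd, List.mem_cons] at hx'
    rcases hx' with h | h
    · rw [h] at hx
      exact hx (zero_mem_path u)
    · exact hx h
  have hsite : site (d :: u) (i + 1) f := by
    refine ⟨by rw [List.length_cons]; omega, ?_, ?_, ?_⟩
    · rw [List.getD_cons_succ, g3]
      exact hfe
    · rw [List.drop_succ_cons, g2]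
      exact hpc _ hx1
    · rw [List.drop_succ_cons, List.getD_cons_succ, g2, g3]
      exact hpc _ hx2
  have h := hQ (d :: u) hSAP (i + 1) f hsite
  rw [hcons, ← hu'] at h
  exact h

end Pool.Agent.N578.EG
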